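import Pool.Agent.Lib.MP_c5d73d_lc.F.IfaceW

/-!
# Equality, extensionality, pairing, union, power set and foundation in the Boolean-valued universe
-/

universe u

open scoped symmDiff

namespace Pool.Agent.Lib.MP_c5d73d_lc.F.H8

open Pool.Agent.Lib.MP_100a6c_lc
open BName

variable {B : Type u} [CompleteBooleanAlgebra B]

/-- The name of the power set. -/
def pw (x : BName B) : BName B :=
  mk (x.ix → B) (fun f => mk x.ix x.nm fun i => x.vl i ⊓ f i) fun _ => ⊤

theorem mem_pw (x z : BName B) : bmem z (pw x) = (VB B).sub z x := by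
  refine le_antisymm ?_ ?_
  · change (⨆ f : x.ix → B, ⊤ ⊓ beq z (mk x.ix x.nm fun i => x.vl i ⊓ f i)) ≤ _
    refine iSup_le fun f => ?_
    rw [top_inf_eq]
    refine (ext_sub_left x).of_le' (x := mk x.ix x.nm fun i => x.vl i ⊓ f i) le_rfl ?_
    refine le_sub_iff.2 fun i => ?_
    exact (inf_le_right.trans inf_le_left).trans (vl_le_bmem x i)
  · refine le_trans ?_ (le_iSup (fun f : x.ix → B =>
      (⊤ : B) ⊓ beq z (mk x.ix x.nm fun i => x.vl i ⊓ f i)) (fun i => bmem (x.nm i) z))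
    rw [top_inf_eq]
    change (VB B).sub z x ≤ beq z (sepn x (fun t => bmem t z))
    rw [le_beq_iff]
    intro t
    rw [mem_sepn (ext_mem_left z)]
    refine le_antisymm (le_inf inf_le_left (le_inf ?_ inf_le_right)) ?_
    · exact sub_apply le_rfl t inf_le_left inf_le_right
    · exact inf_le_inf_left _ inf_le_right

theorem zb1 : Zb1Statement.{u} := by
  intro B _
  refine eq_top_iff.2 ?_
  refine le_inf (le_inf (le_inf (le_inf (le_inf (le_inf (le_inf ?_ ?_) ?_) ?_) ?_) ?_) ?_) ?_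
  · refine le_iInf fun x => ?_
    rw [VB_eq, beq_refl]
  · refine le_iInf fun x => le_iInf fun y => ?_
    rw [VB_eq, VB_eq, beq_symm x y, himp_self]
  · refine le_iInf fun x => le_iInf fun y => le_iInf fun z => ?_
    rw [le_himp_iff, top_inf_eq]
    exact beq_trans x y z
  · refine le_iInf fun x => le_iInf fun x' => le_iInf fun y => le_iInf fun y' => ?_
    rw [le_himp_iff, top_inf_eq]
    change beq x x' ⊓ beq y y' ⊓ bmem x y ≤ bmem x' y'
    refine (ext_mem_right x').of_le (x := y) (inf_le_left.trans inf_le_right) ?_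
    exact (ext_mem_left y).of_le (x := x) (inf_le_left.trans inf_le_left) inf_le_right
  · refine le_iInf fun x => le_iInf fun y => ?_
    rw [le_himp_iff, top_inf_eq, VB_eq, beq_eq_iInf]
    exact le_rfl
  · refine le_iInf fun a => le_iInf fun b => le_iSup_of_le (upr a b) ?_
    rw [isUPair_eq, beq_refl]
  · refine le_iInf fun x => le_iSup_of_le (uni x.nm x.vl) (le_iInf fun z => ?_)
    have h : (⨆ t, (VB B).mem t x ⊓ (VB B).mem z t) = (VB B).mem z (uni x.nm x.vl) := by
      refine (iSup_mem (ext_mem_right z) x).trans ?_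
      exact (mem_uni x.nm x.vl z).symm
    rw [h, bihimp_self]
  · refine le_iInf fun x => le_iSup_of_le (pw x) (le_iInf fun z => ?_)
    rw [VB_mem, mem_pw, bihimp_self]

theorem mem_inf_eq_bot (x : BName B) {c : B}
    (hc : ∀ y, c ⊓ bmem y x ≤ ⨆ z, bmem z x ⊓ bmem z y) (y : BName B) : c ⊓ bmem y x ≤ ⊥ := by
  induction y with
  | mk ι a p ih =>
    have h1 : c ⊓ bmem (mk ι a p) x ≤ ⨆ i, p i ⊓ bmem (a i) x := by
      refine (hc (mk ι a p)).trans ?_
      have h2 : (⨆ z, bmem z x ⊓ bmem z (mk ι a p)) = ⨆ i, p i ⊓ bmem (a i) x := by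
        simp only [inf_comm (bmem _ x)]
        exact iSup_mem (ext_mem_left x) (mk ι a p)
      exact h2.le
    have h3 : c ⊓ bmem (mk ι a p) x ≤ c ⊓ ⨆ i, p i ⊓ bmem (a i) x := le_inf inf_le_left h1
    refine h3.trans ?_
    rw [inf_iSup_eq]
    refine iSup_le fun i => ?_
    exact (inf_le_inf_left _ inf_le_right).trans (ih i)

theorem zb2 : Zb2Statement.{u} := by
  intro B _
  refine eq_top_iff.2 (le_iInf fun x => ?_)
  rw [le_himp_iff, top_inf_eq]
  refine iSup_le fun y0 => ?_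
  set v : B := ⨆ y, (VB B).mem y x ⊓ ⨅ z, (VB B).mem z x ⇨ ((VB B).mem z y)ᶜ with hv
  have key : vᶜ ⊓ bmem y0 x ≤ ⊥ := by
    refine mem_inf_eq_bot x (fun y => ?_) y0
    have h1 : bmem y x ⊓ (⨅ z, (VB B).mem z x ⇨ ((VB B).mem z y)ᶜ) ≤ v :=
      le_iSup (fun y => (VB B).mem y x ⊓ ⨅ z, (VB B).mem z x ⇨ ((VB B).mem z y)ᶜ) y
    have h2 : (⨅ z, (VB B).mem z x ⇨ ((VB B).mem z y)ᶜ) = (⨆ z, bmem z x ⊓ bmem z y)ᶜ := by
      rw [compl_iSup]
      refine iInf_congr fun z => ?_
      rw [compl_inf, himp_eq, sup_comm]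
      rfl
    rw [h2] at h1
    have h3 : vᶜ ⊓ bmem y x ⊓ (⨆ z, bmem z x ⊓ bmem z y)ᶜ ≤ ⊥ := by
      refine le_trans (le_inf (inf_le_left.trans inf_le_left) ?_) (compl_inf_self v).le
      exact le_trans (inf_le_inf_right _ inf_le_right) h1
    rw [← le_compl_iff_disjoint_right.trans disjoint_iff_inf_le, compl_compl] at h3
    exact h3
  have h4 : Disjoint (bmem y0 x) vᶜ := disjoint_iff_inf_le.2 (by rwa [inf_comm])
  have h5 := le_compl_iff_disjoint_right.2 h4
  rwa [compl_compl] at h5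

end Pool.Agent.Lib.MP_c5d73d_lc.F.H8
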