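import Pool.Agent.Lib.MP_c5d73d_lc.F.IfaceT

/-!
# Cohen forcing: a new real
-/

universe u

open Cardinal

open scoped symmDiff

namespace Pool.Agent.Lib.MP_c5d73d_lc.F.H8

open Pool.Agent.Lib.MP_100a6c_lc

variable {B : Type u} [CompleteBooleanAlgebra B]

/-- In an algebra with countable covers a family of pairwise disjoint nonzero elements is
countable. -/
theorem countable_of_disjoint (h : CCov ℵ₀ B) {T : Type u} (b : T → B) (hb : ∀ t, b t ≠ ⊥)
    (hd : ∀ t t', t ≠ t' → b t ⊓ b t' = ⊥) : Countable T := by
  obtain ⟨s, hs, hsc, hsup⟩ := h (Set.range b)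
  have hinj : Function.Injective b := by
    intro t t' htt
    by_contra hne
    have h1 := hd t t' hne
    rw [← htt, inf_idem] at h1
    exact hb t h1
  have hmem : ∀ t, b t ∈ s := by
    intro t
    by_contra hn
    apply hb t
    have h1 : b t ≤ sSup s := by
      rw [hsup]
      exact le_sSup ⟨t, rfl⟩
    have h2 : b t = b t ⊓ sSup s := (inf_eq_left.2 h1).symm
    rw [h2, inf_sSup_eq]
    refine le_bot_iff.1 (iSup_le fun c => iSup_le fun hc => ?_)
    obtain ⟨t', rfl⟩ := hs hc
    by_cases htt : t = t'
    · subst htt
      exact absurd hc hn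
    · rw [hd t t' htt]
  have hcs : Countable s := mk_le_aleph0_iff.1 hsc
  let g : T → s := fun t => ⟨b t, hmem t⟩
  have hg : Function.Injective g := fun t t' htt => hinj (Subtype.ext_iff.1 htt)
  exact hg.countable

/-- The order of Cohen forcing. -/
noncomputable def cle (s t : ULift.{u} (List Bool)) : B := by
  classical
  exact if t.down <+: s.down then ⊤ else ⊥

theorem cle_of {s t : ULift.{u} (List Bool)} (h : t.down <+: s.down) : (cle s t : B) = ⊤ := by
  rw [cle, if_pos h]

theorem cle_of_not {s t : ULift.{u} (List Bool)} (h : ¬ t.down <+: s.down) :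
    (cle s t : B) = ⊥ := by
  rw [cle, if_neg h]

/-- The value of `a n = e`. -/
def bv (e : Bool) (b : B) : B := if e then b else bᶜ

/-- The dense set of `f`: some value of the condition is different from `f`. -/
def dn (f : Rl B) (s : ULift.{u} (List Bool)) : B :=
  ⨆ n : ℕ, ⨆ e : Bool, if s.down[n]? = some e then (bv e (f n))ᶜ else ⊥

theorem new : NewStatement.{u} := by
  classical
  intro B _ κ hκ hcc hT T f hT'
  have hQ : #(ULift.{u} (List Bool)) < κ := lt_of_le_of_lt mk_le_aleph0 hκ
  obtain ⟨G, hup, hdir, hne, hG⟩ := hT (ULift.{u} (List Bool)) cle hQ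
    (fun q => cle_of (List.prefix_refl _))
    (by
      intro p q r
      by_cases h1 : q.down <+: p.down
      · by_cases h2 : r.down <+: q.down
        · rw [cle_of (h2.trans h1)]; exact le_top
        · rw [cle_of_not h2, inf_bot_eq]; exact bot_le
      · rw [cle_of_not h1, bot_inf_eq]; exact bot_le)
    (by
      intro T' b q hb hd
      rw [mk_le_aleph0_iff]
      have h1 : ∀ s, Countable {t : T' // q t = s} := by
        intro s
        refine countable_of_disjoint hcc (fun t : {t : T' // q t = s} => b t.1)
          (fun t => hb t.1) (fun t t' htt => ?_)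
        have h2 := hd t.1 t'.1 (fun h => htt (Subtype.ext h))
        have h3 : tcomp cle (q t.1) (q t'.1) = (⊤ : B) := by
          refine eq_top_iff.2 (le_iSup_of_le s ?_)
          rw [t.2, t'.2, cle_of (List.prefix_refl _), top_inf_eq]
        rwa [h3, inf_top_eq] at h2
      have h4 : Countable (Σ s, {t : T' // q t = s}) := inferInstance
      exact (Equiv.sigmaFiberEquiv q).symm.countable_iff.2 h4)
    T (fun t => dn (f t)) hT'
    (by
      intro t p
      refine eq_top_iff.2 ?_
      have h1 : ∀ e : Bool, (bv e (f t p.down.length))ᶜ ≤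
          ⨆ q, dn (f t) q ⊓ cle q p := by
        intro e
        refine le_iSup_of_le (ULift.up (p.down ++ [e])) (le_inf ?_ ?_)
        · refine le_iSup_of_le p.down.length (le_iSup_of_le e ?_)
          rw [if_pos (by simp)]
        · rw [cle_of (List.prefix_append _ _)]; exact le_top
      refine le_trans ?_ (sup_le (h1 true) (h1 false))
      simp [bv])
  refine ⟨fun n => ⨆ s : ULift.{u} (List Bool), if s.down[n]? = some true then G s else ⊥,
    fun t => ?_⟩
  set a : Rl B := fun n => ⨆ s : ULift.{u} (List Bool), if s.down[n]? = some true then G s else ⊥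
    with ha
  have hpos : ∀ (n : ℕ) (s : ULift.{u} (List Bool)), s.down[n]? = some true → G s ≤ a n := by
    intro n s hs
    refine le_iSup_of_le s ?_
    rw [if_pos hs]
  have hneg : ∀ (n : ℕ) (s : ULift.{u} (List Bool)), s.down[n]? = some false →
      G s ⊓ a n ≤ ⊥ := by
    intro n s hs
    change G s ⊓ (⨆ s' : ULift.{u} (List Bool), if s'.down[n]? = some true then G s' else ⊥) ≤ ⊥
    rw [inf_iSup_eq]
    refine iSup_le fun s' => ?_
    by_cases hs' : s'.down[n]? = some true
    · rw [if_pos hs']
      refine (hdir s s').trans (iSup_le fun r => ?_)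
      by_cases h1 : s.down <+: r.down
      · by_cases h2 : s'.down <+: r.down
        · exfalso
          obtain ⟨l1, hl1⟩ := h1
          obtain ⟨l2, hl2⟩ := h2
          have e1 : r.down[n]? = some false := by
            rw [← hl1, List.getElem?_append_left]
            · exact hs
            · by_contra hlt
              rw [List.getElem?_eq_none (by omega)] at hs
              exact absurd hs (by simp)
          have e2 : r.down[n]? = some true := by
            rw [← hl2, List.getElem?_append_left]
            · exact hs'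
            · by_contra hlt
              rw [List.getElem?_eq_none (by omega)] at hs'
              exact absurd hs' (by simp)
          rw [e1] at e2
          exact absurd e2 (by simp)
        · rw [cle_of_not h2, inf_bot_eq]
      · rw [cle_of_not h1, inf_bot_eq, bot_inf_eq]
    · rw [if_neg hs', inf_bot_eq]
  set e : B := ⨅ n, (a n ⇔ f t n) with he
  have h1 : e = e ⊓ ⨆ q, G q ⊓ dn (f t) q := by rw [hG t, inf_top_eq]
  rw [h1]
  refine le_bot_iff.1 ?_
  rw [inf_iSup_eq]
  refine iSup_le fun q => ?_
  have h2 : e ⊓ (G q ⊓ dn (f t) q) = ⨆ n : ℕ, ⨆ c : Bool, e ⊓ (G q ⊓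
      if q.down[n]? = some c then (bv c (f t n))ᶜ else ⊥) := by
    simp only [dn, inf_iSup_eq]
  rw [h2]
  refine iSup_le fun n => iSup_le fun c => ?_
  by_cases hc : q.down[n]? = some c
  · rw [if_pos hc]
    have hen : e ≤ a n ⇔ f t n := iInf_le _ n
    cases c with
    | true =>
      have h3 : e ⊓ (G q ⊓ (bv true (f t n))ᶜ) ≤ f t n := by
        have h4 : e ⊓ (G q ⊓ (bv true (f t n))ᶜ) ≤ a n :=
          (inf_le_right.trans inf_le_left).trans (hpos n q hc)
        exact (le_inf (inf_le_left.trans (hen.trans inf_le_right)) h4).trans himp_inf_le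
      refine (le_inf h3 (inf_le_right.trans inf_le_right)).trans ?_
      simp [bv]
    | false =>
      have h3 : e ⊓ (G q ⊓ (bv false (f t n))ᶜ) ≤ f t n := by
        refine (inf_le_right.trans inf_le_right).trans ?_
        simp [bv]
      have h4 : e ⊓ (G q ⊓ (bv false (f t n))ᶜ) ≤ a n :=
        (le_inf (inf_le_left.trans (hen.trans inf_le_left)) h3).trans himp_inf_le
      exact (le_inf (inf_le_right.trans inf_le_left) h4).trans (hneg n q hc)
  · rw [if_neg hc, inf_bot_eq, inf_bot_eq]

end Pool.Agent.Lib.MP_c5d73d_lc.F.H8
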